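import Pool.Agent.H.MP_f56686_gt.Defs

open Set Filter Topology Uniformity

namespace Pool.Agent.H.MP_f56686_gt

lemma comb (G : Set ℝ × (ℝ → ℕ) → ℕ → ℕ)
    (hB : ∀ a : ℕ → Set ℝ × (ℝ → ℕ), (∀ k, (a k).1.Countable) →
      (∀ i, BddAbove (range fun k => G (a k) i)) → ∀ r, ∃ m, ∀ k, r ∈ (a k).1 → (a k).2 r ≤ m) :
    False := by
  classical
  let β : ℝ → List ℕ × ℕ → Prop := fun r c => ∀ a : Set ℝ × (ℝ → ℕ), a.1.Countable → r ∈ a.1 →
    (∀ i < c.1.length, G a i ≤ c.1.getD i 0) → a.2 r ≤ c.2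
  have h1 : ∀ (f : ℕ → ℕ) r, ∃ n m, β r (List.ofFn fun i : Fin n => f i, m) := by
    intro f r
    by_contra h
    push Not at h
    have h' : ∀ n, ∃ a : Set ℝ × (ℝ → ℕ), a.1.Countable ∧ r ∈ a.1 ∧
        (∀ i < n, G a i ≤ f i) ∧ n < a.2 r := by
      intro n
      have := h n n
      simp only [β, not_forall, not_le] at this
      obtain ⟨a, a1, a2, a3, a4⟩ := this
      refine ⟨a, a1, a2, fun i hi => ?_, a4⟩
      have := a3 i (by simpa using hi)
      simpa [List.getD, hi] using this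
    choose a a1 a2 a3 a4 using h'
    obtain ⟨m, hm⟩ := hB a a1 (fun i => by
      refine ⟨f i + ∑ k ∈ Finset.range (i + 1), G (a k) i, ?_⟩
      rintro _ ⟨k, rfl⟩
      by_cases hk : i < k
      · exact (a3 k i hk).trans (Nat.le_add_right _ _)
      · exact (Finset.single_le_sum (f := fun k => G (a k) i) (fun _ _ => Nat.zero_le _)
          (Finset.mem_range.2 (by omega))).trans (Nat.le_add_left _ _)) r
    exact absurd (hm m (a2 m)) (not_le.2 (a4 m))
  obtain ⟨e, he⟩ := exists_surjective_nat (List ℕ × ℕ)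
  have h2 : ∃ r, ∀ k, {s | ∀ i < k, β r (e i) → β s (e i)}.Infinite := by
    by_contra h
    push Not at h
    choose K hK using h
    have : (univ : Set ℝ) ⊆ ⋃ (k : ℕ) (p : Fin k → Prop),
        {s | K s = k ∧ ∀ i : Fin k, β s (e i) = p i} := fun s _ => by
      simp only [mem_iUnion]
      exact ⟨K s, fun i => β s (e i), rfl, fun _ => rfl⟩
    refine Set.not_countable_univ_iff.2 inferInstance (Countable.mono this
      (countable_iUnion fun k => countable_iUnion fun p => ?_))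
    rcases Set.eq_empty_or_nonempty {s | K s = k ∧ ∀ i : Fin k, β s (e i) = p i} with h | ⟨r, hr⟩
    · rw [h]; exact countable_empty
    · refine ((hK r).subset fun s hs i hi hb => ?_).countable
      have hi' : i < k := hr.1 ▸ hi
      have e1 := hr.2 ⟨i, hi'⟩
      have e2 := hs.2 ⟨i, hi'⟩
      simp only at e1 e2
      rw [e2, ← e1]; exact hb
  obtain ⟨r, hr⟩ := h2
  obtain ⟨u, u1, u2⟩ := exists_seq_of_forall_finset_exists
    (fun p : ℝ × ℕ => ∀ i < p.2, β r (e i) → β p.1 (e i)) (fun p q => p.1 ≠ q.1 ∧ p.2 < q.2)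
    (fun s _ => by
      obtain ⟨x, hx, hx'⟩ := (hr (s.sup Prod.snd + 1)).exists_notMem_finset (s.image Prod.fst)
      refine ⟨(x, s.sup Prod.snd + 1), hx, fun p hp => ⟨fun h => hx' ?_, ?_⟩⟩
      · exact Finset.mem_image.2 ⟨p, hp, h⟩
      · exact Nat.lt_succ_of_le (Finset.le_sup (f := Prod.snd) hp))
  have inj : Function.Injective fun k => (u k).1 :=
    Function.Injective.of_lt_imp_ne fun a b h => (u2 a b h).1
  have mono : StrictMono fun k => (u k).2 := fun a b h => (u2 a b h).2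
  let a : Set ℝ × (ℝ → ℕ) := (range fun k => (u k).1, Function.invFun fun k => (u k).1)
  obtain ⟨n, m, hnm⟩ := h1 (G a) r
  obtain ⟨i, hi⟩ := he (List.ofFn fun i : Fin n => G a i, m)
  have := u1 (i + m + 1) i (lt_of_lt_of_le (by omega) (mono.le_apply (x := i + m + 1)))
    (hi ▸ hnm)
  rw [hi] at this
  have := this a (countable_range _) ⟨_, rfl⟩ (fun i hi => by
    have hi' : i < n := by simpa using hi
    simp [List.getD, hi'])
  simp only [a] at this
  rw [Function.leftInverse_invFun inj] at this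
  omega

/-- The equivalence relation collapsing `ℝ \ S` and `ℕ ∩ [n, ∞)`. -/
def R (S : Set ℝ) (n : ℕ) : ℝ ⊕ ℕ → ℝ ⊕ ℕ → Prop
  | .inl a, .inl b => a = b ∨ (a ∉ S ∧ b ∉ S)
  | .inr a, .inr b => a = b ∨ (n ≤ a ∧ n ≤ b)
  | _, _ => False

lemma R_refl (S n x) : R S n x x := by cases x <;> simp [R]

lemma R_symm {S n x y} (h : R S n x y) : R S n y x := by
  cases x <;> cases y <;> simp only [R] at h ⊢ <;> tauto

lemma R_trans {S n x y z} (h : R S n x y) (h' : R S n y z) : R S n x z := by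
  cases x <;> cases y <;> cases z <;> simp only [R] at h h' ⊢ <;> grind

lemma R_mono {S S' n n' x y} (hS : S ⊆ S') (hn : n ≤ n') (h : R S' n' x y) : R S n x y := by
  cases x <;> cases y <;> simp only [R] at h ⊢
  · exact h.imp_right fun h => ⟨fun a => h.1 (hS a), fun a => h.2 (hS a)⟩
  · omega

/-- The specification of the uniformity. -/
def Spec (u : UniformSpace (ℝ ⊕ ℕ)) : Prop :=
  ∀ U, U ∈ @uniformity _ u ↔ ∃ S n, S.Countable ∧ ∀ x y, R S n x y → (x, y) ∈ U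

lemma exists_spec : ∃ u, Spec u := by
  let F : Filter ((ℝ ⊕ ℕ) × (ℝ ⊕ ℕ)) :=
    { sets := {U | ∃ S n, S.Countable ∧ ∀ x y, R S n x y → (x, y) ∈ U}
      univ_sets := ⟨∅, 0, countable_empty, fun _ _ _ => trivial⟩
      sets_of_superset := fun ⟨S, n, h, h'⟩ hs => ⟨S, n, h, fun x y r => hs (h' x y r)⟩
      inter_sets := fun ⟨S, n, h, h'⟩ ⟨T, m, g, g'⟩ => ⟨S ∪ T, max n m, h.union g, fun x y r =>
        ⟨h' x y (R_mono subset_union_left (le_max_left _ _) r),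
          g' x y (R_mono subset_union_right (le_max_right _ _) r)⟩⟩ }
  refine ⟨UniformSpace.ofCore (UniformSpace.Core.mk' F
    (fun _ ⟨S, n, _, h⟩ x => h x x (R_refl _ _ _))
    (fun _ ⟨S, n, h, h'⟩ => ⟨S, n, h, fun x y r => h' y x (R_symm r)⟩)
    (fun _ ⟨S, n, h, h'⟩ => ⟨{p | R S n p.1 p.2}, ⟨S, n, h, fun _ _ r => r⟩, ?_⟩)),
    fun _ => Iff.rfl⟩
  rintro ⟨x, z⟩ ⟨y, h1, h2⟩
  exact h' x z (R_trans h1 h2)

lemma Spec.t0 {u} (hu : Spec u) : @T0Space _ u.toTopologicalSpace := by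
  refine t0Space_iff_ker_uniformity.2 (Subset.antisymm ?_ fun p hp U hU => ?_)
  · rintro ⟨x, y⟩ h
    have h := fun S n (hS : S.Countable) => h {p | R S n p.1 p.2} ((hu _).2 ⟨S, n, hS, fun _ _ r => r⟩)
    show x = y
    rcases x with x | x <;> rcases y with y | y
    · simpa [R] using h {x} 0 (countable_singleton _)
    · exact (h ∅ 0 countable_empty).elim
    · exact (h ∅ 0 countable_empty).elim
    · simpa [R] using h ∅ (x + 1) countable_empty
  · obtain ⟨S, n, -, h⟩ := (hu _).1 hU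
    obtain ⟨x, y⟩ := p
    obtain rfl : x = y := hp
    exact h _ _ (R_refl _ _ _)

lemma Spec.narrow {u} (hu : Spec u) : @Narrow _ u := by
  intro U hU
  obtain ⟨S, n, hS, h⟩ := (hu _).1 hU
  obtain ⟨r, hr⟩ : ∃ r, r ∉ S := by
    by_contra h
    push Not at h
    exact Set.not_countable_univ_iff.2 inferInstance (hS.mono fun x _ => h x)
  refine ⟨Sum.inl '' insert r S ∪ range Sum.inr,
    ((hS.insert r).image _).union (countable_range _), fun x => ?_⟩
  rcases x with x | x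
  · by_cases hx : x ∈ S
    · exact ⟨_, .inl ⟨x, .inr hx, rfl⟩, h _ _ (R_refl _ _ _)⟩
    · exact ⟨_, .inl ⟨r, .inl rfl, rfl⟩, h _ _ (.inr ⟨hr, hx⟩)⟩
  · exact ⟨_, .inr ⟨x, rfl⟩, h _ _ (R_refl _ _ _)⟩

lemma exists_free (X : Type) [UniformSpace X] : ∃ τ, IsFreeTop X τ := by
  refine ⟨sInf {t | @IsTopologicalGroup _ t _ ∧ TwoSidedUC t FreeGroup.of},
    topologicalGroup_sInf fun t ht => ht.1, fun O hO => ?_, fun t h1 h2 => sInf_le ⟨h1, h2⟩⟩
  have key : ∀ g : X × X → FreeGroup X, (∀ t, @IsTopologicalGroup _ t _ →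
      TwoSidedUC t FreeGroup.of → Tendsto g (𝓤 X) (@nhds _ t 1)) → g ⁻¹' O ∈ 𝓤 X := by
    intro g hg
    refine (?_ : Tendsto g (𝓤 X) _) hO
    rw [nhds_sInf]
    exact tendsto_iInf.2 fun t => tendsto_iInf.2 fun ht => hg t ht.1 ht.2
  exact inter_mem (key (fun p => (FreeGroup.of p.1)⁻¹ * FreeGroup.of p.2) fun t _ h V hV =>
      mem_map.2 (mem_of_superset (h V hV) fun _ hp => hp.1))
    (key (fun p => FreeGroup.of p.1 * (FreeGroup.of p.2)⁻¹) fun t _ h V hV =>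
      mem_map.2 (mem_of_superset (h V hV) fun _ hp => hp.2))

lemma IsFreeTop.lift {X : Type} [UniformSpace X] {τ} (h : IsFreeTop X τ) {G : Type} [Group G]
    [t : TopologicalSpace G] [IsTopologicalGroup G] (f : X → G) (hf : TwoSidedUC t f) :
    @Continuous _ _ τ t (FreeGroup.lift f) := by
  refine continuous_iff_le_induced.2 (h.2.2 _ (topologicalGroup_induced _) fun O hO => ?_)
  rw [nhds_induced, map_one] at hO
  obtain ⟨V, hV, hVO⟩ := hO
  filter_upwards [hf V hV] with p hp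
  exact ⟨hVO (by simpa using hp.1), hVO (by simpa using hp.2)⟩

/-- The wreath product used as a test group. -/
abbrev W : Type := RegularWreathProduct (ℕ → Multiplicative ℤ) (Multiplicative ℝ)

/-- The basic subgroups of the test group. -/
def B (k : Multiplicative ℝ → ℕ) : Set W := {w | w.right = 1 ∧ ∀ g, ∀ n < k g, w.left g n = 1}

/-- The group filter basis on the test group. -/
@[reducible] def basis : GroupFilterBasis W where
  sets := range B
  nonempty := range_nonempty _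
  inter_sets := by
    rintro _ _ ⟨k, rfl⟩ ⟨l, rfl⟩
    exact ⟨_, ⟨k ⊔ l, rfl⟩, fun w hw => ⟨⟨hw.1, fun g n hn => hw.2 g n (lt_sup_of_lt_left hn)⟩,
      hw.1, fun g n hn => hw.2 g n (lt_sup_of_lt_right hn)⟩⟩
  one' := by
    rintro _ ⟨k, rfl⟩
    exact ⟨rfl, fun _ _ _ => rfl⟩
  mul' := by
    rintro _ ⟨k, rfl⟩
    refine ⟨_, ⟨k, rfl⟩, ?_⟩
    rintro _ ⟨a, ha, b, hb, rfl⟩
    exact ⟨by simp [ha.1, hb.1], fun g n hn => by simp [ha.1, ha.2 g n hn, hb.2 g n hn]⟩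
  inv' := by
    rintro _ ⟨k, rfl⟩
    exact ⟨_, ⟨k, rfl⟩, fun a ha => ⟨by simp [ha.1], fun g n hn => by simp [ha.1, ha.2 g n hn]⟩⟩
  conj' := by
    rintro x _ ⟨k, rfl⟩
    refine ⟨_, ⟨fun g => k (x.right * g), rfl⟩, fun a ha => ⟨by simp [ha.1], fun g n hn => ?_⟩⟩
    have := ha.2 (x.right⁻¹ * g) n (by simpa using hn)
    simp [ha.1, this]

/-- The test element. -/
def el (r : ℝ) (n : ℕ) : FreeGroup (ℝ ⊕ ℕ) :=
  .of (.inl r) * (.of (.inr n) * (FreeGroup.of (.inr (n + 1)))⁻¹) * (FreeGroup.of (.inl r))⁻¹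

lemma Spec.small {u} (hu : Spec u) {τ} (h : @IsFreeTop _ u τ) (S : Set ℝ) (hS : S.Countable)
    (j : ℝ → ℕ) : ∃ O ∈ @nhds _ τ 1, ∀ r ∈ S, ∀ n, el r n ∈ O → j r ≤ n := by
  classical
  let f : ℝ ⊕ ℕ → W := Sum.elim
    (fun r => if r ∈ S then RegularWreathProduct.inl (Multiplicative.ofAdd r) else 1)
    fun n => ⟨Pi.mulSingle 1 (Pi.mulSingle n (Multiplicative.ofAdd 1)), 1⟩
  let := basis.topology
  have := basis.isTopologicalGroup
  have hf : TwoSidedUC basis.topology f := by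
    intro O hO
    obtain ⟨_, ⟨k, rfl⟩, hk⟩ := basis.nhds_one_hasBasis.mem_iff.1 hO
    have h1 : (1 : W) ∈ O := mem_of_mem_nhds hO
    refine (hu _).2 ⟨S, k 1, hS, fun x y hxy => ?_⟩
    rcases x with x | x <;> rcases y with y | y
    · rcases hxy with rfl | hxy
      · simpa using h1
      · simpa [f, hxy.1, hxy.2] using h1
    · exact hxy.elim
    · exact hxy.elim
    · rcases hxy with rfl | hxy
      · simpa using h1
      · have : ∀ z, k 1 ≤ z → ∀ g, ∀ n < k g, (f (.inr z)).left g n = 1 := by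
          intro z hz g n hn
          by_cases hg : g = 1
          · subst hg
            simp [f, Pi.mulSingle_eq_of_ne (show n ≠ z by omega)]
          · simp [f, Pi.mulSingle_eq_of_ne hg]
        have r1 : ∀ z, (f (.inr z)).right = 1 := fun _ => rfl
        exact ⟨hk ⟨by simp [r1], fun g n hn => by simp [r1, this _ hxy.1 g n hn, this _ hxy.2 g n hn]⟩,
          hk ⟨by simp [r1], fun g n hn => by simp [r1, this _ hxy.1 g n hn, this _ hxy.2 g n hn]⟩⟩
  have hc := (h.lift f hf).tendsto 1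
  rw [map_one] at hc
  refine ⟨_, hc (basis.mem_nhds_one ⟨fun g => j g.toAdd, rfl⟩), fun r hr n hn => ?_⟩
  by_contra hj
  have := hn.2 (Multiplicative.ofAdd r) n (by simpa using hj)
  simp [el, f, hr] at this

lemma Spec.big {u} (hu : Spec u) {τ} (h : @IsFreeTop _ u τ) (O) (hO : O ∈ @nhds _ τ 1) (r : ℝ) :
    ∃ n, el r n ∈ O := by
  have := h.1
  have : Continuous fun x : FreeGroup (ℝ ⊕ ℕ) =>
      FreeGroup.of (.inl r) * x * (FreeGroup.of (.inl r))⁻¹ := by fun_prop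
  have := this.tendsto 1
  simp only [mul_one, mul_inv_cancel] at this
  obtain ⟨S, n, -, hn⟩ := (hu _).1 (h.2.1 _ (this hO))
  exact ⟨n, (hn (.inr n) (.inr (n + 1)) (.inr ⟨le_rfl, Nat.le_succ _⟩)).2⟩

lemma Spec.main {u} (hu : Spec u) {τ} (h : @IsFreeTop _ u τ) {Q : Type} [Preorder Q]
    (F : Q → ℕ → ℕ) (hF : ∀ q : ℕ → Q, (∀ i, BddAbove (range fun k => F (q k) i)) →
      BddAbove (range q)) : ¬ TukeyLE (RevIncl (@nhds _ τ 1).sets) Q := by
  rintro ⟨Φ, hΦ⟩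
  have hT : ∀ O ∈ @nhds _ τ 1, ∃ t, ∀ q, t ≤ q → (OrderDual.ofDual (Φ q)).1 ⊆ O := by
    intro O hO
    by_contra hn
    push Not at hn
    obtain ⟨_, ⟨q, hq, rfl⟩, h'⟩ := hΦ {q | ¬ (OrderDual.ofDual (Φ q)).1 ⊆ O}
      (fun t => (hn t).imp fun q hq => ⟨hq.2, hq.1⟩) (OrderDual.toDual ⟨O, hO⟩)
    exact hq h'
  have : ∀ a : Set ℝ × (ℝ → ℕ), ∃ t : Q, a.1.Countable → ∀ q, t ≤ q → ∀ r ∈ a.1, ∀ n,
      el r n ∈ (OrderDual.ofDual (Φ q)).1 → a.2 r ≤ n := by
    intro a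
    by_cases ha : a.1.Countable
    · obtain ⟨O, hO, h'⟩ := hu.small h a.1 ha a.2
      obtain ⟨t, ht⟩ := hT O hO
      exact ⟨t, fun _ q hq r hr n hn => h' r hr n (ht q hq hn)⟩
    · exact (hT _ univ_mem).imp fun _ _ h => absurd h ha
  choose T hT using this
  refine comb (fun a => F (T a)) fun a ha hb r => ?_
  obtain ⟨q, hq⟩ := hF (fun k => T (a k)) hb
  obtain ⟨n, hn⟩ := hu.big h _ (OrderDual.ofDual (Φ q)).2 r
  exact ⟨n, fun k hk => hT _ (ha k) q (hq ⟨k, rfl⟩) r hk n hn⟩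

lemma Spec.bound {u} (hu : Spec u) : ∃ b : Set ((ℝ ⊕ ℕ) × (ℝ ⊕ ℕ)) → ℕ,
    ∀ U : ℕ → Set ((ℝ ⊕ ℕ) × (ℝ ⊕ ℕ)), (∀ k, U k ∈ @uniformity _ u) →
      BddAbove (range fun k => b (U k)) → ∃ V ∈ @uniformity _ u,
        (∀ x y, (x, y) ∈ V → (y, x) ∈ V) ∧ ∀ k, V ⊆ U k := by
  have : ∀ U, ∃ S n, U ∈ @uniformity _ u → S.Countable ∧ ∀ x y, R S n x y → (x, y) ∈ U := by
    intro U
    by_cases hU : U ∈ @uniformity _ u
    · obtain ⟨S, n, h⟩ := (hu _).1 hU
      exact ⟨S, n, fun _ => h⟩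
    · exact ⟨∅, 0, fun h => absurd h hU⟩
  choose S b hb using this
  refine ⟨b, fun U hU ⟨m, hm⟩ => ⟨{p | R (⋃ k, S (U k)) m p.1 p.2}, (hu _).2 ⟨_, m,
    countable_iUnion fun k => (hb _ (hU k)).1, fun _ _ r => r⟩, fun _ _ => R_symm, fun k p hp => ?_⟩⟩
  exact (hb _ (hU k)).2 _ _ (R_mono (subset_iUnion (fun k => S (U k)) k) (hm ⟨k, rfl⟩) hp)

end Pool.Agent.H.MP_f56686_gt
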