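import Mathlib

open Set Filter Topology Uniformity

namespace Pool.Agent.H.MP_f56686_gt

/-- Tukey reducibility `P ≤_T Q`: some map `Q → P` sends cofinal sets to cofinal sets. -/
def TukeyLE (P Q : Type) [Preorder P] [Preorder Q] : Prop :=
  ∃ f : Q → P, ∀ C : Set Q, IsCofinal C → IsCofinal (f '' C)

/-- A family of sets ordered by reverse inclusion. -/
abbrev RevIncl {α : Type} (F : Set (Set α)) : Type := (↥F)ᵒᵈ

/-- `ω`-narrow uniform space: for each entourage, countably many balls cover the space. -/
def Narrow (X : Type) [UniformSpace X] : Prop :=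
  ∀ U ∈ 𝓤 X, ∃ A : Set X, A.Countable ∧ ∀ x, ∃ a ∈ A, (a, x) ∈ U

/-- `f : X → G` is uniformly continuous for the two-sided uniformity of the group topology `t`. -/
def TwoSidedUC {X G : Type} [UniformSpace X] [Group G] (t : TopologicalSpace G) (f : X → G) :
    Prop :=
  ∀ O ∈ @nhds G t 1, {p : X × X | (f p.1)⁻¹ * f p.2 ∈ O ∧ f p.1 * (f p.2)⁻¹ ∈ O} ∈ 𝓤 X

/-- `τ` is the topology of the free topological group over the uniform space `X`: the finest
group topology on the free group making the canonical map two-sided uniformly continuous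
(in Mathlib `τ ≤ t` means that `τ` is finer than `t`). -/
def IsFreeTop (X : Type) [UniformSpace X] (τ : TopologicalSpace (FreeGroup X)) : Prop :=
  @IsTopologicalGroup _ τ _ ∧ TwoSidedUC τ FreeGroup.of ∧
    ∀ t : TopologicalSpace (FreeGroup X), @IsTopologicalGroup _ t _ →
      TwoSidedUC t FreeGroup.of → τ ≤ t

end Pool.Agent.H.MP_f56686_gt
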